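import Pool.Agent.H85.LV.FPA

/-!
# MP_e21eee, board lvp, row FP: few alive points in the cosets of `H k p k ⊔ H k q k`
-/

set_option autoImplicit false

open Finset MeasureTheory

namespace Pool.Agent.H85.LV

open Pool.Agent.H24.CL Pool.Agent.H24.LV

/-- (FP) -/
theorem pf_FP (_hWT : L_WT) (hCH : L_CH) (hFB : L_FB) (hJP : L_JP) (hRM : L_RM) : L_FP := by
  intro k hk c hc hc10
  obtain ⟨CF, hCF, hF⟩ := hFB k hk
  have hF' : ∀ x : ℝ, ∃ d : ℝ, 0 < d ∧ (0 < x → x ≤ 1 / 10 → ∀ Dm : ℝ,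
      ∃ q₀ : ℕ, ∀ (q N : ℕ) (t : ℝ), q₀ ≤ q → q.Prime → 1 ≤ N → 0 < t →
      (q : ℝ) ^ (CF * (1 + Real.log (1 / x))) ≤ N * t ^ 2 → N * t ^ 2 ≤ (q : ℝ) ^ Dm →
      ∃ E : Set (X k), MeasurableSet E ∧
        (N : ℝ) ^ (KN k) * t ^ (2 * KN k) * volume.real E ≤ (q : ℝ) ^ (-d) ∧ d ≤ 1 ∧
        Cnt (H k q k) ({a : X k | t ≤ ‖u N a‖} \ E) ((q : ℝ) ^ x)) := by
    intro x
    by_cases hx : 0 < x ∧ x ≤ 1 / 10
    · obtain ⟨d, hd, h⟩ := hF x hx.1 hx.2
      refine ⟨min d 1, lt_min hd one_pos, fun _ _ Dm => ?_⟩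
      obtain ⟨q₀, h'⟩ := h Dm
      refine ⟨q₀, fun q N t h1 h2 h3 h4 h5 h6 => ?_⟩
      obtain ⟨E, hE1, hE2, hE3⟩ := h' q N t h1 h2 h3 h4 h5 h6
      refine ⟨E, hE1, hE2.trans (Real.rpow_le_rpow_of_exponent_le ?_ ?_), min_le_right _ _, hE3⟩
      · exact_mod_cast h2.one_le
      · have := min_le_left d 1
        linarith
    · exact ⟨1, one_pos, fun h1 h2 => absurd ⟨h1, h2⟩ hx⟩
  choose dF hdF0 hdF using hF'
  obtain ⟨CJ, hCJ, hJ⟩ := hJP k (by omega)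
  obtain ⟨CA, hCA, hCHk⟩ := hCH k hk
  have hk0 : (0 : ℝ) < k := by exact_mod_cast (by omega : 0 < k)
  have hkr : (3 : ℝ) ≤ k := by exact_mod_cast hk
  have hKk : (KN k : ℝ) = k * (k + 1) / 2 := by
    unfold KN
    rw [Nat.cast_div (Nat.even_mul_succ_self k).two_dvd (by norm_num)]
    push_cast
    ring
  have hK0 : (1 : ℝ) ≤ KN k := by
    rw [hKk]
    nlinarith only [hkr]
  obtain ⟨γ, hγ⟩ : ∃ γ : ℕ → ℝ, ∀ j, γ j = cs c k dF (k - j) := ⟨_, fun _ => rfl⟩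
  have hγ0 : ∀ j, 0 < γ j := fun j => by
    rw [hγ]
    exact cs_pos c k dF hc (by omega) hdF0 _
  have hγc : ∀ j, γ j ≤ c / 8 := fun j => by
    rw [hγ]
    exact cs_anti c k dF (Nat.zero_le _)
  have hγm : ∀ i j, i ≤ j → γ i ≤ γ j := fun i j hij => by
    rw [hγ, hγ]
    exact cs_anti c k dF (by omega)
  have hγs : ∀ j, j < k → γ j ≤ dF (γ (j + 1)) / (16 * k) := fun j hj => by
    rw [hγ, hγ]
    have h1 : k - j = (k - (j + 1)) + 1 := by omega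
    rw [h1]
    exact cs_succ c k dF _
  obtain ⟨j₀, -, hj₀⟩ := Finset.exists_min_image (range (k + 1)) (fun j => dF (γ j))
    ⟨0, mem_range.2 (by omega)⟩
  obtain ⟨dm, hdm⟩ : ∃ dm, dm = dF (γ j₀) := ⟨_, rfl⟩
  have hdm0 : 0 < dm := hdm ▸ hdF0 _
  have hdmj : ∀ j ≤ k, dm ≤ dF (γ j) := fun j hj => by
    rw [hdm]
    exact hj₀ j (mem_range.2 (by omega))
  obtain ⟨c₁, hc₁⟩ : ∃ c₁, c₁ = min c dm / (1024 * k * KN k) := ⟨_, rfl⟩
  have hden : (0 : ℝ) < 1024 * k * KN k := by positivity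
  have hc₁0 : 0 < c₁ := by
    rw [hc₁]
    exact div_pos (lt_min hc hdm0) hden
  have hc₁c : c₁ * (1024 * k * KN k) ≤ c := by
    rw [hc₁, div_mul_cancel₀ _ hden.ne']
    exact min_le_left _ _
  have hc₁d : c₁ * (1024 * k * KN k) ≤ dm := by
    rw [hc₁, div_mul_cancel₀ _ hden.ne']
    exact min_le_right _ _
  have hkK : (3 : ℝ) ≤ k * KN k := by nlinarith only [hkr, hK0]
  have hc₁s : c₁ ≤ 1 / 10 := by
    have h1 := mul_le_mul_of_nonneg_left hkK hc₁0.le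
    have h2 : c₁ * (1024 * k * KN k) = 1024 * (c₁ * (k * KN k)) := by ring
    rw [h2] at hc₁c
    linarith only [h1, hc₁c, hc10, hc₁0]
  obtain ⟨dC, hdC, hC2⟩ := hCHk c₁ hc₁0 hc₁s
  obtain ⟨x₀, hx₀⟩ : ∃ x₀, x₀ = CF * (1 + Real.log (1 / γ 0)) := ⟨_, rfl⟩
  have hlog : ∀ x : ℝ, 0 < x → x ≤ 1 → 0 ≤ Real.log (1 / x) := fun x h1 h2 =>
    Real.log_nonneg (by rw [le_div_iff₀ h1]; linarith)
  have hxj : ∀ j, 0 ≤ CF * (1 + Real.log (1 / γ j)) ∧ CF * (1 + Real.log (1 / γ j)) ≤ x₀ := by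
    intro j
    have h1 := hlog (γ j) (hγ0 j) (by have := hγc j; linarith)
    refine ⟨mul_nonneg (by linarith only [hCF]) (by linarith only [h1]), ?_⟩
    rw [hx₀]
    have h2 : Real.log (1 / γ j) ≤ Real.log (1 / γ 0) := by
      refine Real.log_le_log (one_div_pos.2 (hγ0 j)) ?_
      exact one_div_le_one_div_of_le (hγ0 0) (hγm 0 j (Nat.zero_le _))
    exact mul_le_mul_of_nonneg_left (by linarith only [h2]) (by linarith only [hCF])
  have hx00 : 0 ≤ x₀ := (hxj 0).1.trans (hxj 0).2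
  have hcA : 0 ≤ CA * (1 + Real.log (1 / c₁)) := by
    have := hlog c₁ hc₁0 (by linarith only [hc₁s])
    exact mul_nonneg (by linarith only [hCA]) (by linarith only [this])
  obtain ⟨d, hd⟩ : ∃ d, d = min dC dm / 2 := ⟨_, rfl⟩
  have hd0 : 0 < d := by
    rw [hd]
    have := lt_min hdC hdm0
    linarith
  have hdC2 : 2 * d ≤ dC := by
    rw [hd]
    have := min_le_left dC dm
    linarith
  have hdm2 : 2 * d ≤ dm := by
    rw [hd]
    have := min_le_right dC dm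
    linarith
  refine ⟨d, CA * (1 + Real.log (1 / c₁)) + (k + 1 + 2 * x₀), hd0, fun Dm => ?_⟩
  obtain ⟨qC, TT, m₁, T, ε, hT, hε, hεc, hCHq⟩ := hC2 Dm c₁ hc₁0
  obtain ⟨DF, hDF⟩ : ∃ DF : ℝ, DF = 2 * (max Dm 0 + 2 * m₁) := ⟨_, rfl⟩
  have hFq := fun j => hdF (γ j) (hγ0 j) (by have := hγc j; linarith) DF
  choose qF hqF using hFq
  obtain ⟨C₁, hC₁⟩ : ∃ C₁ : ℝ, C₁ = ((k : ℝ) + 1) *
    (2 ^ (KN k) * (2 ^ (m₁ + 1)) ^ (2 * KN k) * 2 ^ k * 2) := ⟨_, rfl⟩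
  obtain ⟨q1, hq1⟩ := big (2 * (2 ^ (m₁ + 1)) ^ 2) 1 one_pos
  obtain ⟨q2, hq2⟩ := big (CJ * (2 ^ (2 * k + 2) * ((k.factorial : ℝ)) ^ k * 2)) (c / 4)
    (by linarith)
  obtain ⟨q3, hq3⟩ := big (TT : ℝ) (c / 2) (by linarith)
  obtain ⟨q4, hq4⟩ := big (1 + TT * C₁) (d / 2) (by linarith)
  refine ⟨qC + (range (k + 1)).sup qF + q1 + q2 + q3 + q4 + k + 2, ?_⟩
  intro p q N t hp0 hq0 hp hq hpq hpq2 hqp2 hN ht hlo hhi
  have hqr1 : (1 : ℝ) ≤ q := by exact_mod_cast hq.one_le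
  have hqr2 : (2 : ℝ) ≤ q := by exact_mod_cast hq.two_le
  have hqr0 : (0 : ℝ) < q := by linarith
  by_cases ht1 : t ≤ 1
  swap
  · refine ⟨∅, MeasurableSet.empty, by simp only [measureReal_empty, mul_zero]; positivity, ?_⟩
    intro Y hY _
    have : Y = ∅ := by
      refine Finset.eq_empty_of_forall_notMem (fun y hy => ?_)
      have h1 : t ≤ ‖u N y‖ := (hY y hy).1
      have h2 := u_le k N hN y
      linarith
    rw [this]
    simp only [Finset.card_empty, Nat.cast_zero]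
    positivity
  obtain ⟨m, L, E₀, W, A, n, hkm, hm1, hqL, hLN, hNL, hE0m, hE0v, hchains, hcov⟩ :=
    hCHq q N t (by omega) hq hN ht ht1 (le_trans (Real.rpow_le_rpow_of_exponent_le hqr1
      (by linarith)) hlo) hhi
  have hL1 : 1 ≤ L := hq.one_le.trans hqL
  have hLr : (1 : ℝ) ≤ L := by exact_mod_cast hL1
  have hNr : (N : ℝ) ≤ 2 * ((q : ℝ) ^ m * L) := by exact_mod_cast hNL
  have hNr' : (q : ℝ) ^ m * L ≤ N := by exact_mod_cast hLN
  have hm1r : (m : ℝ) ≤ m₁ := by exact_mod_cast hm1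
  -- the exceptional sets
  have hexc : ∀ (r : ℕ), r.Prime → r ≤ 2 * q → q ≤ 2 * r → (range (k + 1)).sup qF ≤ r →
      ∀ (i : Fin TT) (j : ℕ), j ≤ k → ∃ E : Set (X k), MeasurableSet E ∧
        (((q : ℝ) ^ (m - j) * L) ^ (KN k) * (A i j) ^ (2 * KN k)) * volume.real E ≤
          2 * (q : ℝ) ^ (-(dF (γ j))) ∧ Cnt (H k r k) (W i j \ E) ((r : ℝ) ^ (γ j)) := by
    intro r hr hrq hqr hrF i j hj
    have hr1 : (1 : ℝ) ≤ r := by exact_mod_cast hr.one_le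
    have hr2 : (2 : ℝ) ≤ r := by exact_mod_cast hr.two_le
    have hr0 : (0 : ℝ) < r := by linarith
    have hrq' : (r : ℝ) ≤ 2 * q := by exact_mod_cast hrq
    have hqr' : (q : ℝ) ≤ 2 * r := by exact_mod_cast hqr
    have hch := (hchains i).1
    have hAlo := hch.A_lo j (by omega)
    have hAhi := hch.A_hi j (by omega)
    have h2m : (0 : ℝ) < 2 ^ m := by positivity
    have hA0 : 0 < A i j := lt_of_lt_of_le (by positivity) hAlo
    have hN1 : 1 ≤ q ^ (m - j) * L := Nat.one_le_iff_ne_zero.2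
      (Nat.mul_ne_zero (pow_ne_zero _ hq.pos.ne') (by omega))
    have hqFr : qF j ≤ r := le_trans (Finset.le_sup (f := qF) (mem_range.2 (by omega))) hrF
    have htA : t ≤ 2 ^ (m₁ + 1) * A i j := by
      rw [div_le_iff₀ h2m] at hAlo
      have h1 : (2 : ℝ) ^ m ≤ 2 ^ m₁ := pow_le_pow_right₀ (by norm_num) hm1
      rw [pow_succ]
      have h2 := mul_le_mul_of_nonneg_left h1 hA0.le
      have h3 : (2 : ℝ) ^ m₁ * 2 * A i j = 2 * (A i j * 2 ^ m₁) := by ring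
      rw [h3]
      linarith only [h2, hAlo, ht]
    have hNj : (N : ℝ) ≤ 2 * ((q : ℝ) ^ j * ((q : ℝ) ^ (m - j) * L)) := by
      refine hNr.trans (le_of_eq ?_)
      rw [← mul_assoc ((q : ℝ) ^ j), ← pow_add]
      congr 3
      omega
    have hlow : (q : ℝ) ^ (2 * x₀) ≤ ((q ^ (m - j) * L : ℕ) : ℝ) * (A i j) ^ 2 := by
      push_cast
      have h1 : (q : ℝ) ^ ((k : ℝ) + 1 + 2 * x₀) ≤ N * t ^ 2 :=
        le_trans (Real.rpow_le_rpow_of_exponent_le hqr1 (by linarith)) hlo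
      have h2 : (N : ℝ) * t ^ 2 ≤ 2 * ((q : ℝ) ^ j * ((q : ℝ) ^ (m - j) * L)) *
          (2 ^ (m₁ + 1) * A i j) ^ 2 := by
        have := pow_le_pow_left₀ ht.le htA 2
        have h3 : 0 ≤ (N : ℝ) := Nat.cast_nonneg _
        gcongr
      have h4 : (q : ℝ) ^ ((k : ℝ) + 1 + 2 * x₀) = (q : ℝ) ^ (2 * x₀) * ((q : ℝ) ^ k * q) := by
        rw [Real.rpow_add hqr0, Real.rpow_add hqr0, Real.rpow_natCast, Real.rpow_one]
        ring
      have h5 : 2 * (2 ^ (m₁ + 1)) ^ 2 ≤ (q : ℝ) := by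
        have := hq1 q (by omega)
        rwa [Real.rpow_one] at this
      have h6 : (q : ℝ) ^ j ≤ (q : ℝ) ^ k := pow_le_pow_right₀ hqr1 hj
      have h7 : 0 < (q : ℝ) ^ k * q := by positivity
      have h8 : 0 ≤ (q : ℝ) ^ (m - j) * L * (A i j) ^ 2 := by positivity
      have h9 : (q : ℝ) ^ (2 * x₀) * ((q : ℝ) ^ k * q) ≤
          ((q : ℝ) ^ (m - j) * L * (A i j) ^ 2) * ((q : ℝ) ^ k * q) := by
        calc (q : ℝ) ^ (2 * x₀) * ((q : ℝ) ^ k * q) ≤ N * t ^ 2 := h4 ▸ h1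
          _ ≤ _ := h2
          _ = ((q : ℝ) ^ (m - j) * L * (A i j) ^ 2) *
              ((q : ℝ) ^ j * (2 * (2 ^ (m₁ + 1)) ^ 2)) := by ring
          _ ≤ _ := by gcongr
      exact le_of_mul_le_mul_right h9 h7
    have hup : ((q ^ (m - j) * L : ℕ) : ℝ) * (A i j) ^ 2 ≤ (r : ℝ) ^ DF := by
      push_cast
      have h1 : A i j ≤ t * (q : ℝ) ^ m := by
        refine hAhi.trans ?_
        have : (0 : ℝ) < (q : ℝ) ^ m := by positivity
        exact mul_le_mul_of_nonneg_right (by linarith only [ht]) this.le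
      have h2 : (q : ℝ) ^ (m - j) * L ≤ N := by
        refine le_trans ?_ hNr'
        have : (q : ℝ) ^ (m - j) ≤ (q : ℝ) ^ m := pow_le_pow_right₀ hqr1 (by omega)
        gcongr
      have h3 : (q : ℝ) ^ (m - j) * L * (A i j) ^ 2 ≤ N * t ^ 2 * (q : ℝ) ^ (2 * m) := by
        calc (q : ℝ) ^ (m - j) * L * (A i j) ^ 2 ≤ N * (t * (q : ℝ) ^ m) ^ 2 := by gcongr
          _ = N * t ^ 2 * (q : ℝ) ^ (2 * m) := by
            rw [mul_pow, ← pow_mul, mul_comm m 2]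
            ring
      have h4 : (N : ℝ) * t ^ 2 * (q : ℝ) ^ (2 * m) ≤ (q : ℝ) ^ (max Dm 0 + 2 * m₁) := by
        rw [Real.rpow_add hqr0]
        have h5 : (q : ℝ) ^ (2 * m) ≤ (q : ℝ) ^ ((2 : ℝ) * m₁) := by
          rw [← Real.rpow_natCast]
          refine Real.rpow_le_rpow_of_exponent_le hqr1 ?_
          push_cast
          linarith
        have h6 : (N : ℝ) * t ^ 2 ≤ (q : ℝ) ^ (max Dm 0) :=
          hhi.trans (Real.rpow_le_rpow_of_exponent_le hqr1 (le_max_left _ _))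
        gcongr
      have h7 : (q : ℝ) ^ (max Dm 0 + 2 * m₁) ≤ (r : ℝ) ^ DF := by
        have h8 : 0 ≤ max Dm 0 + 2 * (m₁ : ℝ) := by
          have := le_max_right Dm 0
          positivity
        calc (q : ℝ) ^ (max Dm 0 + 2 * m₁) ≤ ((r : ℝ) ^ (2 : ℝ)) ^ (max Dm 0 + 2 * (m₁ : ℝ)) := by
              refine Real.rpow_le_rpow hqr0.le ?_ h8
              rw [Real.rpow_two]
              nlinarith only [hqr', hr2]
          _ = (r : ℝ) ^ DF := by rw [← Real.rpow_mul hr0.le, hDF]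
      exact h3.trans (h4.trans h7)
    have hlow' : (r : ℝ) ^ (CF * (1 + Real.log (1 / γ j))) ≤
        ((q ^ (m - j) * L : ℕ) : ℝ) * (A i j) ^ 2 := by
      refine le_trans ?_ hlow
      have h1 := (hxj j).1
      have h2 := (hxj j).2
      calc (r : ℝ) ^ (CF * (1 + Real.log (1 / γ j))) ≤
            ((q : ℝ) ^ (2 : ℝ)) ^ (CF * (1 + Real.log (1 / γ j))) := by
            refine Real.rpow_le_rpow hr0.le ?_ h1
            rw [Real.rpow_two]
            nlinarith only [hrq', hqr2]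
        _ = (q : ℝ) ^ (2 * (CF * (1 + Real.log (1 / γ j)))) := by rw [← Real.rpow_mul hqr0.le]
        _ ≤ (q : ℝ) ^ (2 * x₀) := Real.rpow_le_rpow_of_exponent_le hqr1 (by linarith)
    obtain ⟨E, hE1, hE2, hE3, hE4⟩ := hqF j r (q ^ (m - j) * L) (A i j) hqFr hr hN1 hA0 hlow' hup
    refine ⟨E, hE1, ?_, ?_⟩
    · push_cast at hE2
      refine hE2.trans ?_
      have h1 : (r : ℝ) ^ (-(dF (γ j))) ≤ ((q : ℝ) / 2) ^ (-(dF (γ j))) :=
        Real.rpow_le_rpow_of_nonpos (by positivity) (by linarith) (by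
          have := hdF0 (γ j)
          linarith)
      refine h1.trans ?_
      rw [Real.div_rpow hqr0.le (by norm_num), Real.rpow_neg (by norm_num : (0 : ℝ) ≤ 2),
        div_inv_eq_mul, mul_comm]
      have h2 : (2 : ℝ) ^ (dF (γ j)) ≤ 2 := by
        calc (2 : ℝ) ^ (dF (γ j)) ≤ (2 : ℝ) ^ (1 : ℝ) :=
              Real.rpow_le_rpow_of_exponent_le (by norm_num) hE3
          _ = 2 := Real.rpow_one _
      exact mul_le_mul_of_nonneg_right h2 (Real.rpow_pos_of_pos hqr0 _).le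
    · intro Y hY hYY
      refine hE4 Y (fun y hy => ?_) hYY
      have := hY y hy
      exact ⟨hch.lo j (by omega) y this.1, this.2⟩
  have hexc' : ∀ (i : Fin TT) (j : ℕ), ∃ E : Set (X k), j ≤ k → (MeasurableSet E ∧
      (((q : ℝ) ^ (m - j) * L) ^ (KN k) * (A i j) ^ (2 * KN k)) * volume.real E ≤
        2 * (q : ℝ) ^ (-(dF (γ j))) ∧ (j < k → Cnt (H k q k) (W i j \ E) ((q : ℝ) ^ (γ j))) ∧
        (j = k → Cnt (H k p k) (W i j \ E) ((p : ℝ) ^ (γ j)))) := by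
    intro i j
    rcases lt_trichotomy j k with hj | hj | hj
    · obtain ⟨E, h1, h2, h3⟩ := hexc q hq (by omega) (by omega) (by omega) i j hj.le
      exact ⟨E, fun _ => ⟨h1, h2, fun _ => h3, fun h => absurd h (by omega)⟩⟩
    · obtain ⟨E, h1, h2, h3⟩ := hexc p hp hpq2 hqp2 (by omega) i j hj.le
      exact ⟨E, fun _ => ⟨h1, h2, fun h => absurd h (by omega), fun _ => h3⟩⟩
    · exact ⟨∅, fun h => absurd h (by omega)⟩
  choose EE hEE using hexc'
  have hkq : k < q := by omega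
  have hceps : c₁ + ε ≤ 2 * c₁ := by linarith
  have hZ : CJ * ((2 * (q : ℝ) ^ (c₁ + ε)) ^ (2 * k + 2) *
      ((k.factorial : ℝ) * ((q : ℝ) ^ c₁) ^ k) ^ k * (p : ℝ) ^ (γ k)) ≤ (q : ℝ) ^ (c / 2) :=
    zbound k p q c c₁ ε CJ (γ k) hqr1 hpq2 hk hc hc10 hc₁0 hceps (hγ0 k) (hγc k)
      (by rw [← hKk]; exact hc₁c) hCJ (hq2 q (by omega))
  have hZq : (q : ℝ) ^ (c / 2) ≤ q := by
    calc (q : ℝ) ^ (c / 2) ≤ (q : ℝ) ^ (1 : ℝ) :=
          Real.rpow_le_rpow_of_exponent_le hqr1 (by linarith)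
      _ = q := Real.rpow_one _
  have hmain : ∀ i : Fin TT, ∃ W0 : Set (X k), MeasurableSet W0 ∧ W0 ⊆ W i 0 ∧
      Cnt (H k p k ⊔ H k q k) W0 ((q : ℝ) ^ (c / 2)) ∧
      (N : ℝ) ^ (KN k) * t ^ (2 * KN k) * volume.real (W i 0 \ W0) ≤
        C₁ * (q : ℝ) ^ (-(7 * dm / 8)) := by
    intro i
    refine per_chain k hk hRM CJ hCJ (fun p q hp hq hpq hkq => hJ p q hp hq hpq hkq) p q m L N hp hq
      hpq hkq hL1 hkm T ε c₁ t dm ((q : ℝ) ^ (c / 2)) C₁ hT hε hc₁0 ht hNr (W i) (A i) (n i)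
      (hchains i).1 (hchains i).2 γ (fun j => dF (γ j)) (EE i) (fun j hj => (hEE i j hj).1)
      (fun j hj => (hEE i j hj.le).2.2.1 hj) ((hEE i k le_rfl).2.2.2 rfl) (hγ0 k).le
      (fun j hj => (hEE i j hj).2.1) hdmj hdm0 ?_ hZ hZq ?_
    · intro j hj i' hi'
      have h1 : γ i' ≤ dF (γ j) / (16 * k) := by
        have h2 : γ i' ≤ γ (j - 1) := hγm _ _ (by omega)
        have h3 := hγs (j - 1) (by omega)
        have h4 : j - 1 + 1 = j := by omega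
        rw [h4] at h3
        exact h2.trans h3
      have h5 : c₁ + ε ≤ dF (γ j) / (16 * k) := by
        rw [le_div_iff₀ (by positivity)]
        have h6 := hdmj j hj
        have h7 : 2 * c₁ * (16 * k) ≤ c₁ * (1024 * k * KN k) := by
          have h9 : 0 ≤ c₁ * k := by positivity
          have h10 := mul_nonneg h9 (by linarith only [hK0] : 0 ≤ (KN k : ℝ) - 1)
          nlinarith only [h9, h10]
        have h11 : (c₁ + ε) * (16 * k) ≤ 2 * c₁ * (16 * k) :=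
          mul_le_mul_of_nonneg_right hceps (by positivity)
        linarith only [h6, h7, h11, hc₁d]
      have h8 : dF (γ j) / (8 * k) = dF (γ j) / (16 * k) + dF (γ j) / (16 * k) := by
        field_simp
        ring
      rw [h8]
      linarith
    · rw [hC₁]
      have h1 : (2 : ℝ) ^ (m + 1) ≤ 2 ^ (m₁ + 1) := pow_le_pow_right₀ (by norm_num) (by omega)
      gcongr
  choose W0 hW0m hW0s hW0c hW0v using hmain
  refine ⟨E₀ ∪ ⋃ i, (W i 0 \ W0 i), ?_, ?_, ?_⟩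
  · refine hE0m.union (MeasurableSet.iUnion (fun i => ?_))
    exact ((hchains i).1.meas 0 (Nat.zero_le _)).diff (hW0m i)
  · have hNt : 0 ≤ (N : ℝ) ^ (KN k) * t ^ (2 * KN k) := by positivity
    have h1 : volume.real (E₀ ∪ ⋃ i, (W i 0 \ W0 i)) ≤ volume.real E₀ +
        ∑ i, volume.real (W i 0 \ W0 i) := by
      refine (measureReal_union_le _ _).trans ?_
      have := measureReal_iUnion_fintype_le (μ := (volume : Measure (X k)))
        (fun i => W i 0 \ W0 i)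
      linarith
    have h2 : (N : ℝ) ^ (KN k) * t ^ (2 * KN k) * volume.real (E₀ ∪ ⋃ i, (W i 0 \ W0 i)) ≤
        (q : ℝ) ^ (-dC) + TT * (C₁ * (q : ℝ) ^ (-(7 * dm / 8))) := by
      calc (N : ℝ) ^ (KN k) * t ^ (2 * KN k) * volume.real (E₀ ∪ ⋃ i, (W i 0 \ W0 i))
          ≤ (N : ℝ) ^ (KN k) * t ^ (2 * KN k) * (volume.real E₀ +
            ∑ i, volume.real (W i 0 \ W0 i)) := mul_le_mul_of_nonneg_left h1 hNt
        _ = (N : ℝ) ^ (KN k) * t ^ (2 * KN k) * volume.real E₀ + ∑ i, (N : ℝ) ^ (KN k) *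
            t ^ (2 * KN k) * volume.real (W i 0 \ W0 i) := by rw [mul_add, Finset.mul_sum]
        _ ≤ (q : ℝ) ^ (-dC) + ∑ _i : Fin TT, C₁ * (q : ℝ) ^ (-(7 * dm / 8)) :=
            add_le_add hE0v (Finset.sum_le_sum (fun i _ => hW0v i))
        _ = _ := by simp
    refine h2.trans ?_
    have h3 : (q : ℝ) ^ (-dC) ≤ (q : ℝ) ^ (-(3 * d / 2)) :=
      Real.rpow_le_rpow_of_exponent_le hqr1 (by linarith)
    have h4 : (q : ℝ) ^ (-(7 * dm / 8)) ≤ (q : ℝ) ^ (-(3 * d / 2)) :=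
      Real.rpow_le_rpow_of_exponent_le hqr1 (by linarith)
    have hC₁0 : 0 ≤ C₁ := by
      rw [hC₁]
      positivity
    have h5 : (q : ℝ) ^ (-dC) + TT * (C₁ * (q : ℝ) ^ (-(7 * dm / 8))) ≤
        (1 + TT * C₁) * (q : ℝ) ^ (-(3 * d / 2)) := by
      calc _ ≤ (q : ℝ) ^ (-(3 * d / 2)) + TT * (C₁ * (q : ℝ) ^ (-(3 * d / 2))) := by gcongr
        _ = _ := by ring
    refine h5.trans ?_
    calc (1 + TT * C₁) * (q : ℝ) ^ (-(3 * d / 2))
        ≤ (q : ℝ) ^ (d / 2) * (q : ℝ) ^ (-(3 * d / 2)) :=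
          mul_le_mul_of_nonneg_right (hq4 q (by omega)) (Real.rpow_pos_of_pos hqr0 _).le
      _ = (q : ℝ) ^ (-d) := by
          rw [← Real.rpow_add hqr0]
          congr 1
          ring
  · intro Y hY hYY
    classical
    have hmem : ∀ y ∈ Y, ∃ i, y ∈ W0 i := by
      intro y hy
      obtain ⟨h1, h2⟩ := hY y hy
      rw [Set.mem_union, not_or] at h2
      rcases hcov h1 with h3 | h3
      · exact absurd h3 h2.1
      · obtain ⟨i, hi⟩ := Set.mem_iUnion.1 h3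
        refine ⟨i, ?_⟩
        by_contra h4
        exact h2.2 (Set.mem_iUnion.2 ⟨i, hi, h4⟩)
    have hsub : Y ⊆ (univ : Finset (Fin TT)).biUnion (fun i => Y.filter (fun y => y ∈ W0 i)) := by
      intro y hy
      obtain ⟨i, hi⟩ := hmem y hy
      exact Finset.mem_biUnion.2 ⟨i, mem_univ _, Finset.mem_filter.2 ⟨hy, hi⟩⟩
    have h1 : (Y.card : ℝ) ≤ ∑ i : Fin TT, ((Y.filter (fun y => y ∈ W0 i)).card : ℝ) := by
      have := (Finset.card_le_card hsub).trans Finset.card_biUnion_le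
      exact_mod_cast this
    have h2 : ∑ i : Fin TT, ((Y.filter (fun y => y ∈ W0 i)).card : ℝ) ≤
        ∑ _i : Fin TT, (q : ℝ) ^ (c / 2) := by
      refine Finset.sum_le_sum (fun i _ => ?_)
      refine hW0c i _ (fun y hy => (Finset.mem_filter.1 hy).2) (fun y hy y' hy' => ?_)
      exact hYY y (Finset.mem_filter.1 hy).1 y' (Finset.mem_filter.1 hy').1
    refine h1.trans (h2.trans ?_)
    simp only [Finset.sum_const, Finset.card_univ, Fintype.card_fin, nsmul_eq_mul]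
    calc (TT : ℝ) * (q : ℝ) ^ (c / 2) ≤ (q : ℝ) ^ (c / 2) * (q : ℝ) ^ (c / 2) :=
          mul_le_mul_of_nonneg_right (hq3 q (by omega)) (Real.rpow_pos_of_pos hqr0 _).le
      _ = (q : ℝ) ^ c := by
          rw [← Real.rpow_add hqr0]
          congr 1
          ring

end Pool.Agent.H85.LV
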