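import Pool.Agent.H24.LV.Targets
import Pool.Agent.H24.CL.Base
import Pool.Agent.H24.CLK.PH

/-!
# MP_e21eee, board lvp, row FP: lemmas
-/

set_option autoImplicit false

open Finset MeasureTheory

namespace Pool.Agent.H85.LV

open Pool.Agent.H24.CL Pool.Agent.H24.LV

/-- large powers -/
theorem big (C a : ℝ) (ha : 0 < a) : ∃ q₀ : ℕ, ∀ q : ℕ, q₀ ≤ q → C ≤ (q : ℝ) ^ a := by
  have h := (tendsto_rpow_atTop ha).comp (tendsto_natCast_atTop_atTop (R := ℝ))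
  obtain ⟨q₀, hq⟩ := (h.eventually (Filter.eventually_ge_atTop C)).exists_forall_of_atTop
  exact ⟨q₀, hq⟩

/-- the parameters of the levels, from the bottom -/
noncomputable def cs (c : ℝ) (k : ℕ) (dF : ℝ → ℝ) : ℕ → ℝ
  | 0 => c / 8
  | i + 1 => min (cs c k dF i) (dF (cs c k dF i) / (16 * k))

theorem cs_pos (c : ℝ) (k : ℕ) (dF : ℝ → ℝ) (hc : 0 < c) (hk : 1 ≤ k) (hd : ∀ x, 0 < dF x) :
    ∀ i, 0 < cs c k dF i := by
  intro i
  induction i with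
  | zero => simp only [cs]; linarith
  | succ i ih =>
    have hk' : (0 : ℝ) < k := by exact_mod_cast hk
    simp only [cs]
    exact lt_min ih (div_pos (hd _) (by positivity))

theorem cs_anti (c : ℝ) (k : ℕ) (dF : ℝ → ℝ) : Antitone (cs c k dF) := by
  refine antitone_nat_of_succ_le (fun i => ?_)
  simp only [cs]
  exact min_le_left _ _

theorem cs_succ (c : ℝ) (k : ℕ) (dF : ℝ → ℝ) (i : ℕ) :
    cs c k dF (i + 1) ≤ dF (cs c k dF i) / (16 * k) := by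
  simp only [cs]
  exact min_le_right _ _

theorem chain_ne {k q m L : ℕ} {T ρ t₀ : ℝ} {W : ℕ → Set (X k)} {A n : ℕ → ℝ}
    (h : IsChain k q m L T ρ t₀ W A n) (h0 : (W 0).Nonempty) : ∀ j ≤ m, (W j).Nonempty := by
  intro j
  induction j with
  | zero => intro _; exact h0
  | succ j ih =>
    intro hj
    obtain ⟨w, hw⟩ := ih (by omega)
    have h1 := h.card_lo j (by omega) w hw
    have h2 := h.one_le j (by omega)
    have h3 : 0 < (pos q (W (j + 1)) w).card := by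
      rcases Nat.eq_zero_or_pos (pos q (W (j + 1)) w).card with h4 | h4
      · rw [h4] at h1
        norm_num at h1
        linarith
      · exact h4
    obtain ⟨b, hb⟩ := Finset.card_pos.1 h3
    refine ⟨phi q b w, ?_⟩
    classical
    unfold pos at hb
    exact (Finset.mem_filter.1 hb).2

theorem term_bound (K j k : ℕ) (q N Nj t Aj M2 e δ V : ℝ) (γ : ℕ → ℝ) (hq : 1 ≤ q) (hk : 1 ≤ k)
    (hj : j ≤ k) (hN0 : 0 ≤ N) (hN : N ≤ 2 * (q ^ j * Nj)) (hNj : 0 < Nj) (ht : 0 < t)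
    (htA : t ≤ M2 * Aj) (hA : 0 < Aj) (hM2 : 1 ≤ M2) (hδ : 0 < δ)
    (hγ : ∀ i < j, e + γ i ≤ δ / (8 * k)) (hV : 0 ≤ V)
    (hVb : Nj ^ K * Aj ^ (2 * K) * V ≤ 2 * q ^ (-δ)) :
    N ^ K * t ^ (2 * K) * ((∏ i ∈ range j, (2 * q * q ^ (γ i) / (q ^ (1 - e) * q ^ K))) * V) ≤
      2 ^ K * M2 ^ (2 * K) * 2 ^ k * 2 * q ^ (-(7 * δ / 8)) := by
  have hq0 : 0 < q := by linarith
  have hk' : (0 : ℝ) < k := by exact_mod_cast hk
  have hqK : 0 < q ^ K := by positivity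
  have h1 : ∀ i ∈ range j, 2 * q * q ^ (γ i) / (q ^ (1 - e) * q ^ K) ≤
      2 * q ^ (δ / (8 * k)) / q ^ K := by
    intro i hi
    have h2 : 2 * q * q ^ (γ i) / (q ^ (1 - e) * q ^ K) = 2 * q ^ (e + γ i) / q ^ K := by
      rw [Real.rpow_sub hq0, Real.rpow_one, Real.rpow_add hq0]
      have : 0 < q ^ e := Real.rpow_pos_of_pos hq0 _
      field_simp
    rw [h2]
    have h3 : q ^ (e + γ i) ≤ q ^ (δ / (8 * k)) :=
      Real.rpow_le_rpow_of_exponent_le hq (hγ i (mem_range.1 hi))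
    gcongr
  have h2 : (∏ i ∈ range j, (2 * q * q ^ (γ i) / (q ^ (1 - e) * q ^ K))) ≤
      2 ^ k * q ^ (δ / 8) / (q ^ K) ^ j := by
    have h3 : (∏ i ∈ range j, (2 * q * q ^ (γ i) / (q ^ (1 - e) * q ^ K))) ≤
        ∏ _i ∈ range j, (2 * q ^ (δ / (8 * k)) / q ^ K) := by
      refine Finset.prod_le_prod (fun i _ => ?_) h1
      have := Real.rpow_pos_of_pos hq0 (γ i)
      have := Real.rpow_pos_of_pos hq0 (1 - e)
      positivity
    refine h3.trans ?_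
    rw [Finset.prod_const, Finset.card_range, div_pow, mul_pow]
    have h4 : (2 : ℝ) ^ j ≤ 2 ^ k := pow_le_pow_right₀ (by norm_num) hj
    have h5 : (q ^ (δ / (8 * k))) ^ j ≤ q ^ (δ / 8) := by
      rw [← Real.rpow_natCast, ← Real.rpow_mul hq0.le]
      refine Real.rpow_le_rpow_of_exponent_le hq ?_
      have hj' : (j : ℝ) ≤ k := by exact_mod_cast hj
      rw [div_mul_eq_mul_div, div_le_div_iff₀ (by positivity) (by norm_num)]
      nlinarith [mul_le_mul_of_nonneg_left hj' hδ.le]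
    have h6 : 0 ≤ (q ^ (δ / (8 * k))) ^ j := by positivity
    gcongr
  have hNK : N ^ K ≤ 2 ^ K * ((q ^ K) ^ j * Nj ^ K) := by
    calc N ^ K ≤ (2 * (q ^ j * Nj)) ^ K := pow_le_pow_left₀ hN0 hN K
      _ = 2 ^ K * ((q ^ K) ^ j * Nj ^ K) := by
        rw [mul_pow, mul_pow, ← pow_mul, ← pow_mul, mul_comm j K]
  have htK : t ^ (2 * K) ≤ M2 ^ (2 * K) * Aj ^ (2 * K) := by
    calc t ^ (2 * K) ≤ (M2 * Aj) ^ (2 * K) := pow_le_pow_left₀ ht.le htA _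
      _ = _ := mul_pow _ _ _
  have hqj : 0 < (q ^ K) ^ j := by positivity
  have hprod0 : 0 ≤ ∏ i ∈ range j, (2 * q * q ^ (γ i) / (q ^ (1 - e) * q ^ K)) := by
    refine Finset.prod_nonneg (fun i _ => ?_)
    have := Real.rpow_pos_of_pos hq0 (γ i)
    have := Real.rpow_pos_of_pos hq0 (1 - e)
    positivity
  calc N ^ K * t ^ (2 * K) *
        ((∏ i ∈ range j, (2 * q * q ^ (γ i) / (q ^ (1 - e) * q ^ K))) * V)
      ≤ (2 ^ K * ((q ^ K) ^ j * Nj ^ K)) * (M2 ^ (2 * K) * Aj ^ (2 * K)) *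
          ((2 ^ k * q ^ (δ / 8) / (q ^ K) ^ j) * V) := by
        have hd8 : 0 < q ^ (δ / 8) := Real.rpow_pos_of_pos hq0 _
        gcongr
    _ = 2 ^ K * M2 ^ (2 * K) * 2 ^ k * q ^ (δ / 8) * (Nj ^ K * Aj ^ (2 * K) * V) := by
        field_simp
    _ ≤ 2 ^ K * M2 ^ (2 * K) * 2 ^ k * q ^ (δ / 8) * (2 * q ^ (-δ)) := by
        have hd8 : 0 < q ^ (δ / 8) := Real.rpow_pos_of_pos hq0 _
        gcongr
    _ = 2 ^ K * M2 ^ (2 * K) * 2 ^ k * 2 * q ^ (-(7 * δ / 8)) := by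
        have : q ^ (δ / 8) * q ^ (-δ) = q ^ (-(7 * δ / 8)) := by
          rw [← Real.rpow_add hq0]
          congr 1
          ring
        calc _ = 2 ^ K * M2 ^ (2 * K) * 2 ^ k * 2 * (q ^ (δ / 8) * q ^ (-δ)) := by ring
          _ = _ := by rw [this]

/-- one chain -/
theorem per_chain (k : ℕ) (hk : 3 ≤ k) (hRM : L_RM) (CJ : ℝ) (hCJ : 1 ≤ CJ)
    (hJ : ∀ (p q : ℕ), p.Prime → q.Prime → p ≠ q → k < q →
      ∀ (W : ℕ → Set (X k)) (B F G : ℝ), 1 ≤ B → 1 ≤ F → 1 ≤ G →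
      (∀ j < k, Car q (W j) (W (j + 1)) ((q : ℝ) / B)) → (∀ j < k, Cnt (H k q 1) (W j) F) →
      Cnt (H k p k) (W k) G → CJ * (B ^ (2 * k + 2) * F ^ k * G) ≤ q →
        Cnt (H k p k ⊔ H k q k) (W 0) (CJ * (B ^ (2 * k) * F ^ k * G)))
    (p q m L N : ℕ) (hp : p.Prime) (hq : q.Prime) (hpq : p ≠ q) (hkq : k < q) (hL : 1 ≤ L)
    (hkm : k ≤ m) (T ε c₁ t δ₀ Z C₁ : ℝ) (hT : 1 ≤ T) (hε : 0 < ε) (hc₁ : 0 < c₁) (ht : 0 < t)
    (hN : (N : ℝ) ≤ 2 * ((q : ℝ) ^ m * L)) (W : ℕ → Set (X k)) (A n : ℕ → ℝ)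
    (hch : IsChain k q m L T ((q : ℝ) ^ ε) (3 * t / 4) W A n)
    (hGr : ∀ l < k, Gr q T ((q : ℝ) ^ ε) A n l ≤ (q : ℝ) ^ c₁)
    (γ δ : ℕ → ℝ) (E : ℕ → Set (X k)) (hE : ∀ j ≤ k, MeasurableSet (E j))
    (hEq : ∀ j < k, Cnt (H k q k) (W j \ E j) ((q : ℝ) ^ (γ j)))
    (hEp : Cnt (H k p k) (W k \ E k) ((p : ℝ) ^ (γ k))) (hγk : 0 ≤ γ k)
    (hEv : ∀ j ≤ k, (((q : ℝ) ^ (m - j) * L) ^ (KN k) * (A j) ^ (2 * KN k)) *
      volume.real (E j) ≤ 2 * (q : ℝ) ^ (-(δ j)))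
    (hδ : ∀ j ≤ k, δ₀ ≤ δ j) (hδ₀ : 0 < δ₀)
    (hγδ : ∀ j ≤ k, ∀ i < j, (c₁ + ε) + γ i ≤ δ j / (8 * k))
    (hZ : CJ * ((2 * (q : ℝ) ^ (c₁ + ε)) ^ (2 * k + 2) *
      ((k.factorial : ℝ) * ((q : ℝ) ^ c₁) ^ k) ^ k * (p : ℝ) ^ (γ k)) ≤ Z) (hZq : Z ≤ q)
    (hC₁ : ((k : ℝ) + 1) * (2 ^ (KN k) * (2 ^ (m + 1)) ^ (2 * KN k) * 2 ^ k * 2) ≤ C₁) :
    ∃ W0 : Set (X k), MeasurableSet W0 ∧ W0 ⊆ W 0 ∧ Cnt (H k p k ⊔ H k q k) W0 Z ∧
      (N : ℝ) ^ (KN k) * t ^ (2 * KN k) * volume.real (W 0 \ W0) ≤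
        C₁ * (q : ℝ) ^ (-(7 * δ₀ / 8)) := by
  have hq1 : (1 : ℝ) ≤ q := by exact_mod_cast hq.one_le
  have hq0 : (0 : ℝ) < q := by linarith
  have hp1 : (1 : ℝ) ≤ p := by exact_mod_cast hp.one_le
  have hK0 : (0 : ℝ) ≤ C₁ := le_trans (by positivity) hC₁
  have hqc : (1 : ℝ) ≤ (q : ℝ) ^ c₁ := Real.one_le_rpow hq1 hc₁.le
  have hqe : (1 : ℝ) ≤ (q : ℝ) ^ ε := Real.one_le_rpow hq1 hε.le
  have hqce : (1 : ℝ) ≤ (q : ℝ) ^ (c₁ + ε) := Real.one_le_rpow hq1 (by linarith)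
  have hfac : (1 : ℝ) ≤ (k.factorial : ℝ) := by exact_mod_cast Nat.factorial_pos k
  have hF1 : (1 : ℝ) ≤ (k.factorial : ℝ) * ((q : ℝ) ^ c₁) ^ k := by
    have : (1 : ℝ) ≤ ((q : ℝ) ^ c₁) ^ k := one_le_pow₀ hqc
    nlinarith
  have hG1 : (1 : ℝ) ≤ (p : ℝ) ^ (γ k) := Real.one_le_rpow hp1 hγk
  have hB1 : (1 : ℝ) ≤ 2 * (q : ℝ) ^ (c₁ + ε) := by linarith
  have hZ0 : 0 ≤ Z := by
    refine le_trans ?_ hZ
    positivity
  by_cases hne : (W 0).Nonempty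
  swap
  · rw [Set.not_nonempty_iff_eq_empty] at hne
    refine ⟨∅, MeasurableSet.empty, Set.empty_subset _, ?_, ?_⟩
    · intro Y hY _
      have : Y = ∅ := Finset.eq_empty_of_forall_notMem (fun y hy => hY y hy)
      rw [this]
      simpa using hZ0
    · rw [hne]
      simp only [Set.sdiff_self, measureReal_empty, mul_zero]
      positivity
  have hWne := chain_ne hch hne
  have ht0 : 0 < 3 * t / 4 := by linarith
  have hLA := rLA k q m L T ((q : ℝ) ^ ε) (3 * t / 4) W A n (by omega) hq.two_le hL hT hqe ht0 hch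
  have hPH := Pool.Agent.H24.CLK.pf_PH rEX rTO rNW k q m L T ((q : ℝ) ^ ε) (3 * t / 4) W A n
    (by omega) hq hkq hL hT hqe ht0 hch
  -- the number of children
  have hnj : ∀ j < k, (q : ℝ) ^ (1 - (c₁ + ε)) ≤ n j := by
    intro j hj
    obtain ⟨-, -, h3⟩ := hLA j (by omega)
    obtain ⟨h4, h5⟩ := h3 (hWne j (by omega))
    have h6 := hch.one_le j (by omega)
    have h7 : (q : ℝ) ≤ (q : ℝ) ^ (c₁ + ε) * n j := by
      refine h5.trans ?_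
      rw [Real.rpow_add hq0]
      have := hGr j hj
      calc (q : ℝ) ^ ε * n j * Gr q T ((q : ℝ) ^ ε) A n j
          ≤ (q : ℝ) ^ ε * n j * (q : ℝ) ^ c₁ := by
            refine mul_le_mul_of_nonneg_left this ?_
            have : 0 ≤ (q : ℝ) ^ ε := by linarith
            have h8 : 0 ≤ n j := by linarith
            positivity
        _ = (q : ℝ) ^ c₁ * (q : ℝ) ^ ε * n j := by ring
    rw [Real.rpow_sub hq0, Real.rpow_one, div_le_iff₀ (by linarith)]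
    linarith
  have hAj : ∀ j ≤ k, 0 < A j := by
    intro j hj
    have h1 := hch.A_lo j (by omega)
    have : 0 < 3 * t / 4 / 2 ^ m := by positivity
    linarith
  obtain ⟨W', hW1, hW2, hW3, hW4⟩ := hRM k q k hk (by exact_mod_cast hq.one_le) W E
    (fun _ => (q : ℝ) ^ (1 - (c₁ + ε))) (fun j => (q : ℝ) ^ (γ j))
    (fun j hj => hch.meas j (by omega)) hE
    (fun j hj => ⟨Real.rpow_pos_of_pos hq0 _, (Real.rpow_pos_of_pos hq0 _).le, by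
      obtain ⟨-, h2, -⟩ := hLA j (by omega)
      intro w hw
      obtain ⟨D, hD1, hD2, hD3⟩ := h2 w hw
      exact ⟨D, hD1, hD2, (hnj j hj).trans hD3⟩, hEq j hj⟩)
  refine ⟨W' 0, (hW1 0 (by omega)).1, (hW1 0 (by omega)).2.trans Set.sdiff_subset, ?_, ?_⟩
  · -- counting
    have hcar : ∀ j < k, Car q (W' j) (W' (j + 1)) ((q : ℝ) / (2 * (q : ℝ) ^ (c₁ + ε))) := by
      intro j hj w hw
      obtain ⟨D, hD1, hD2, hD3⟩ := hW2 j hj w hw
      refine ⟨D, hD1, hD2, le_trans (le_of_eq ?_) hD3⟩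
      rw [Real.rpow_sub hq0, Real.rpow_one]
      have : (q : ℝ) ^ (c₁ + ε) ≠ 0 := by linarith
      field_simp
    have hcnt : ∀ j < k, Cnt (H k q 1) (W' j) ((k.factorial : ℝ) * ((q : ℝ) ^ c₁) ^ k) := by
      intro j hj Y hY hYY
      have h1 := hPH j (by omega) Y (fun y hy => ((hW1 j (by omega)).2 (hY y hy)).1) hYY
      refine h1.trans ?_
      obtain ⟨-, -, h3⟩ := hLA j (by omega)
      obtain ⟨h4, -⟩ := h3 (hWne j (by omega))
      have h5 : Gr q T ((q : ℝ) ^ ε) A n j ^ k ≤ ((q : ℝ) ^ c₁) ^ k :=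
        pow_le_pow_left₀ (by linarith) (hGr j hj) k
      exact mul_le_mul_of_nonneg_left h5 (by linarith)
    have hlast : Cnt (H k p k) (W' k) ((p : ℝ) ^ (γ k)) := by rw [hW3]; exact hEp
    have h1 := hJ p q hp hq hpq hkq W' _ _ _ hB1 hF1 hG1 hcar hcnt hlast (hZ.trans hZq)
    intro Y hY hYY
    refine (h1 Y hY hYY).trans (le_trans ?_ hZ)
    refine mul_le_mul_of_nonneg_left ?_ (by linarith)
    have h2 : (2 * (q : ℝ) ^ (c₁ + ε)) ^ (2 * k) ≤ (2 * (q : ℝ) ^ (c₁ + ε)) ^ (2 * k + 2) :=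
      pow_le_pow_right₀ hB1 (by omega)
    have h3 : 0 ≤ ((k.factorial : ℝ) * ((q : ℝ) ^ c₁) ^ k) ^ k := by positivity
    gcongr
  · -- measure
    have hterm : ∀ j ∈ range (k + 1), (N : ℝ) ^ (KN k) * t ^ (2 * KN k) *
        ((∏ i ∈ range j, (2 * q * (q : ℝ) ^ (γ i) / ((q : ℝ) ^ (1 - (c₁ + ε)) *
          (q : ℝ) ^ (KN k)))) * volume.real (W j ∩ E j)) ≤
        2 ^ (KN k) * (2 ^ (m + 1)) ^ (2 * KN k) * 2 ^ k * 2 * (q : ℝ) ^ (-(7 * δ₀ / 8)) := by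
      intro j hj
      have hj' : j ≤ k := by
        have := mem_range.1 hj
        omega
      have hNj : (0 : ℝ) < (q : ℝ) ^ (m - j) * L := by
        have : (0 : ℝ) < L := by exact_mod_cast hL
        positivity
      have h1 := term_bound (KN k) j k (q : ℝ) (N : ℝ) ((q : ℝ) ^ (m - j) * L) t (A j)
        (2 ^ (m + 1)) (c₁ + ε) (δ j) (volume.real (W j ∩ E j)) γ hq1 (by omega) hj'
        (Nat.cast_nonneg _) (by
          refine hN.trans (le_of_eq ?_)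
          rw [← mul_assoc ((q : ℝ) ^ j), ← pow_add]
          congr 3
          omega) hNj ht (by
          have h2 := hch.A_lo j (by omega)
          have h3 : (0 : ℝ) < 2 ^ m := by positivity
          rw [div_le_iff₀ h3] at h2
          have h4 : (0 : ℝ) < A j := hAj j hj'
          rw [pow_succ]
          nlinarith) (hAj j hj') (one_le_pow₀ (by norm_num))
        (lt_of_lt_of_le hδ₀ (hδ j hj')) (hγδ j hj') measureReal_nonneg (by
          refine le_trans ?_ (hEv j hj')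
          have h5 : volume.real (W j ∩ E j) ≤ volume.real (E j) :=
            measureReal_mono Set.inter_subset_right
          have h6 : 0 < A j := hAj j hj'
          gcongr)
      refine h1.trans ?_
      have h7 : (q : ℝ) ^ (-(7 * δ j / 8)) ≤ (q : ℝ) ^ (-(7 * δ₀ / 8)) :=
        Real.rpow_le_rpow_of_exponent_le hq1 (by
          have := hδ j hj'
          linarith)
      gcongr
    have hNt : 0 ≤ (N : ℝ) ^ (KN k) * t ^ (2 * KN k) := by positivity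
    calc (N : ℝ) ^ (KN k) * t ^ (2 * KN k) * volume.real (W 0 \ W' 0)
        ≤ (N : ℝ) ^ (KN k) * t ^ (2 * KN k) * ∑ j ∈ range (k + 1),
          (∏ i ∈ range j, (2 * q * (q : ℝ) ^ (γ i) / ((q : ℝ) ^ (1 - (c₁ + ε)) *
            (q : ℝ) ^ (KN k)))) * volume.real (W j ∩ E j) := mul_le_mul_of_nonneg_left hW4 hNt
      _ = ∑ j ∈ range (k + 1), (N : ℝ) ^ (KN k) * t ^ (2 * KN k) *
          ((∏ i ∈ range j, (2 * q * (q : ℝ) ^ (γ i) / ((q : ℝ) ^ (1 - (c₁ + ε)) *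
            (q : ℝ) ^ (KN k)))) * volume.real (W j ∩ E j)) := Finset.mul_sum _ _ _
      _ ≤ ∑ _j ∈ range (k + 1), 2 ^ (KN k) * (2 ^ (m + 1)) ^ (2 * KN k) * 2 ^ k * 2 *
          (q : ℝ) ^ (-(7 * δ₀ / 8)) := Finset.sum_le_sum hterm
      _ = (((k : ℝ) + 1) * (2 ^ (KN k) * (2 ^ (m + 1)) ^ (2 * KN k) * 2 ^ k * 2)) *
          (q : ℝ) ^ (-(7 * δ₀ / 8)) := by
        rw [Finset.sum_const, Finset.card_range, nsmul_eq_mul]
        push_cast
        ring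
      _ ≤ C₁ * (q : ℝ) ^ (-(7 * δ₀ / 8)) :=
        mul_le_mul_of_nonneg_right hC₁ (Real.rpow_pos_of_pos hq0 _).le

theorem u_le (k N : ℕ) (hN : 1 ≤ N) (a : X k) : ‖u N a‖ ≤ 1 := by
  unfold u f
  have hN0 : (0 : ℝ) < N := by exact_mod_cast hN
  rw [norm_div, Complex.norm_natCast, div_le_one hN0]
  refine (norm_sum_le _ _).trans ?_
  have : ∀ n ∈ range N, ‖e (P a n)‖ ≤ 1 := by
    intro n _
    unfold e
    rw [Circle.norm_coe]
  refine (Finset.sum_le_sum this).trans ?_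
  simp

/-- the size of the counting bound -/
theorem zbound (k p q : ℕ) (c c₁ ε CJ g : ℝ) (hqr1 : (1 : ℝ) ≤ q) (hpq2 : p ≤ 2 * q) (hk : 3 ≤ k)
    (hc : 0 < c) (hc10 : c ≤ 1 / 10) (hc₁0 : 0 < c₁) (hceps : c₁ + ε ≤ 2 * c₁) (hγ0 : 0 < g)
    (hγc : g ≤ c / 8) (h9 : c₁ * (1024 * k * ((k : ℝ) * (k + 1) / 2)) ≤ c) (hCJ : 1 ≤ CJ)
    (hq2' : CJ * (2 ^ (2 * k + 2) * ((k.factorial : ℝ)) ^ k * 2) ≤ (q : ℝ) ^ (c / 4)) :
    CJ * ((2 * (q : ℝ) ^ (c₁ + ε)) ^ (2 * k + 2) *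
      ((k.factorial : ℝ) * ((q : ℝ) ^ c₁) ^ k) ^ k * (p : ℝ) ^ g) ≤ (q : ℝ) ^ (c / 2) := by
  have hqr0 : (0 : ℝ) < q := by linarith
  have hkr : (3 : ℝ) ≤ k := by exact_mod_cast hk
  have h1 : (q : ℝ) ^ (c₁ + ε) ≤ (q : ℝ) ^ (2 * c₁) :=
    Real.rpow_le_rpow_of_exponent_le hqr1 hceps
  have h2 : (p : ℝ) ^ g ≤ 2 * (q : ℝ) ^ (c / 8) := by
    have hp2 : (p : ℝ) ≤ 2 * q := by exact_mod_cast hpq2
    calc (p : ℝ) ^ g ≤ (2 * (q : ℝ)) ^ g :=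
          Real.rpow_le_rpow (Nat.cast_nonneg _) hp2 hγ0.le
      _ = 2 ^ g * (q : ℝ) ^ g := Real.mul_rpow (by norm_num) hqr0.le
      _ ≤ 2 * (q : ℝ) ^ (c / 8) := by
        have h3 : (2 : ℝ) ^ g ≤ 2 := by
          calc (2 : ℝ) ^ g ≤ (2 : ℝ) ^ (1 : ℝ) :=
                Real.rpow_le_rpow_of_exponent_le (by norm_num) (by linarith)
            _ = 2 := Real.rpow_one _
        have h4 : (q : ℝ) ^ g ≤ (q : ℝ) ^ (c / 8) :=
          Real.rpow_le_rpow_of_exponent_le hqr1 hγc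
        gcongr
  have hfac : (0 : ℝ) < (k.factorial : ℝ) := by exact_mod_cast Nat.factorial_pos k
  have hCJ0 : 0 < CJ := by linarith
  calc CJ * ((2 * (q : ℝ) ^ (c₁ + ε)) ^ (2 * k + 2) *
        ((k.factorial : ℝ) * ((q : ℝ) ^ c₁) ^ k) ^ k * (p : ℝ) ^ g)
      ≤ CJ * ((2 * (q : ℝ) ^ (2 * c₁)) ^ (2 * k + 2) *
        ((k.factorial : ℝ) * ((q : ℝ) ^ c₁) ^ k) ^ k * (2 * (q : ℝ) ^ (c / 8))) := by
        have h5 : 0 < (q : ℝ) ^ (c₁ + ε) := Real.rpow_pos_of_pos hqr0 _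
        have h6 : 0 < (q : ℝ) ^ c₁ := Real.rpow_pos_of_pos hqr0 _
        have h7 : 0 ≤ (p : ℝ) ^ g := by positivity
        gcongr
    _ = (CJ * (2 ^ (2 * k + 2) * ((k.factorial : ℝ)) ^ k * 2)) *
        (((q : ℝ) ^ (2 * c₁)) ^ (2 * k + 2) * (((q : ℝ) ^ c₁) ^ k) ^ k * (q : ℝ) ^ (c / 8)) := by
        rw [mul_pow, mul_pow]
        ring
    _ ≤ (q : ℝ) ^ (c / 4) * (q : ℝ) ^ (c / 4) := by
        have h8 : ((q : ℝ) ^ (2 * c₁)) ^ (2 * k + 2) * (((q : ℝ) ^ c₁) ^ k) ^ k *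
            (q : ℝ) ^ (c / 8) ≤ (q : ℝ) ^ (c / 4) := by
          have e1 : ((q : ℝ) ^ (2 * c₁)) ^ (2 * k + 2) =
              (q : ℝ) ^ ((2 * c₁) * ((2 * k + 2 : ℕ) : ℝ)) :=
            (Real.rpow_mul_natCast hqr0.le _ _).symm
          have e2 : (((q : ℝ) ^ c₁) ^ k) ^ k = (q : ℝ) ^ (c₁ * ((k * k : ℕ) : ℝ)) :=
            (pow_mul _ _ _).symm.trans (Real.rpow_mul_natCast hqr0.le _ _).symm
          rw [e1, e2, ← Real.rpow_add hqr0, ← Real.rpow_add hqr0]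
          refine Real.rpow_le_rpow_of_exponent_le hqr1 ?_
          push_cast
          have h10 : 0 ≤ c₁ * k := by positivity
          have h11 : 0 ≤ c₁ * k * (k - 3) := mul_nonneg h10 (by linarith)
          have h12 : 0 ≤ c₁ * k * k * (k - 3) := by
            have : 0 ≤ c₁ * k * k := by positivity
            exact mul_nonneg this (by linarith)
          have h13 : 0 ≤ c₁ * (k - 3) := mul_nonneg hc₁0.le (by linarith)
          nlinarith only [h9, h10, h11, h12, h13, hc₁0]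
        have h14 : 0 ≤ ((q : ℝ) ^ (2 * c₁)) ^ (2 * k + 2) * (((q : ℝ) ^ c₁) ^ k) ^ k *
            (q : ℝ) ^ (c / 8) := by positivity
        gcongr
    _ = (q : ℝ) ^ (c / 2) := by
        rw [← Real.rpow_add hqr0]
        congr 1
        ring

end Pool.Agent.H85.LV
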